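import Mathlib
import Pool.Agent.Lib.MP_39b2af_an.Instances

/-!
For every `lam ∈ (0, 1]` there is one bounded sequence of positive weights such that on each of
the spaces `ℓ^p`, `1 ≤ p < ∞`, and `c_0` (over `ℝ` or `ℂ`) the weighted backward shift is densely
`lam`-distributionally chaotic, but not `lam'`-distributionally chaotic for any `lam' < lam`.

Coordinates are indexed by `ℕ = {0, 1, 2, …}`, so the vector `e_n` of the problem (`n ≥ 1`) has
index `n - 1`, and the shift acts by `(T x) n = w (n + 1) * x (n + 1)`, that is `T e_1 = 0` and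
`T e_(n+2) = w (n + 1) e_(n+1)`.
-/

open scoped ENNReal ZeroAtInfty

open Pool.Agent.Lib.MP_39b2af_an

namespace Pool.Agent.Results.MP_39b2af_an.ExactExponent

theorem result (𝕜 : Type) [RCLike 𝕜] (lam : ℝ) (h0 : 0 < lam) (h1 : lam ≤ 1) :
    ∃ w : ℕ → ℝ, (∀ n, 0 < w n) ∧ (∃ M : ℝ, ∀ n, w n ≤ M) ∧
      (∀ (p : ℝ≥0∞) [Fact (1 ≤ p)], p ≠ ∞ →
        ShiftHasExponent (fun (x : lp (fun _ : ℕ => 𝕜) p) (n : ℕ) => x n) w lam) ∧
      ShiftHasExponent (fun (x : C₀(ℕ, 𝕜)) (n : ℕ) => x n) w lam := by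
  have hq : 1 ≤ 1 / lam := by rw [le_div_iff₀ h0]; linarith
  refine ⟨wt (1 / lam), wt_pos _, ⟨2, wt_le hq⟩, ?_, ?_⟩
  · intro p _ hp
    obtain ⟨T, hT, h2⟩ := abstract_main (seqSpace_lp 𝕜 p hp) h0 h1
    exact ⟨T, hT, h2⟩
  · obtain ⟨T, hT, h2⟩ := abstract_main (seqSpace_C0 𝕜) h0 h1
    exact ⟨T, hT, h2⟩

end Pool.Agent.Results.MP_39b2af_an.ExactExponent
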